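import Mathlib

/-!
MP_34bddf_lc: an ultrafilter concentrated on the factorials is divisible by every positive integer
but lies outside the multiplicative ideal generated by the closure of the additive idempotents.
-/

namespace Pool.Agent.Results.MP_34bddf_lc.No

open Filter

/-- Extension of an operation to ultrafilters: `A` belongs to `ext s F G` iff the set of `n` with
`{m | s n m ∈ A} ∈ G` belongs to `F`. -/
noncomputable def ext (s : ℕ+ → ℕ+ → ℕ+) (F G : Ultrafilter ℕ+) : Ultrafilter ℕ+ :=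
  F.bind fun n => G.map (s n)

def MAX : Set (Ultrafilter ℕ+) := {F | ∀ n : ℕ+, {m | n ∣ m} ∈ F}

def Gamma : Set (Ultrafilter ℕ+) := closure {F | ext (· + ·) F F = F}

def IsIdeal (I : Set (Ultrafilter ℕ+)) : Prop :=
  I.Nonempty ∧ ∀ F, ∀ G ∈ I, ext (· * ·) F G ∈ I ∧ ext (· * ·) G F ∈ I

/-- The smallest multiplicative ideal containing `Gamma`. -/
def gen : Set (Ultrafilter ℕ+) := ⋂₀ {I | IsIdeal I ∧ Gamma ⊆ I}

theorem mem_ext {s : ℕ+ → ℕ+ → ℕ+} {F G : Ultrafilter ℕ+} {A : Set ℕ+} :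
    A ∈ ext s F G ↔ {n | {m | s n m ∈ A} ∈ G} ∈ F := mem_bind'

def fac (n : ℕ) : ℕ+ := ⟨(n + 3).factorial, Nat.factorial_pos _⟩

theorem result : ∃ F ∈ MAX, F ∉ gen := by
  let I : Set (Ultrafilter ℕ+) := {U | ∀ A ∈ U, ∃ x ∈ A, ∃ y ∈ A, x + y ∈ A}
  have h1 : Gamma ⊆ I := fun U hU A hA => by
    obtain ⟨p, p1, p2⟩ := mem_closure_iff.1 hU _ (ultrafilter_isOpen_basic A) hA
    have p3 : A ∈ ext (· + ·) p p := p2.symm ▸ p1
    obtain ⟨x, x1, x2⟩ := Ultrafilter.nonempty_of_mem (inter_mem p1 (mem_ext.1 p3))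
    obtain ⟨y, y1, y2⟩ := Ultrafilter.nonempty_of_mem (inter_mem p1 x2)
    exact ⟨x, x1, y, y1, y2⟩
  have h2 : ∀ F, ∀ G ∈ I, ext (· * ·) F G ∈ I ∧ ext (· * ·) G F ∈ I := fun F G hG =>
    ⟨fun A hA => by
      obtain ⟨n, hn⟩ := Ultrafilter.nonempty_of_mem (mem_ext.1 hA)
      obtain ⟨x, a, y, b, c⟩ := hG _ hn
      exact ⟨_, a, _, b, mul_add n x y ▸ c⟩, fun A hA => by
      obtain ⟨x, a, y, b, c⟩ := hG _ (mem_ext.1 hA)
      obtain ⟨m, ⟨a, b⟩, c⟩ := Ultrafilter.nonempty_of_mem (inter_mem (inter_mem a b) c)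
      exact ⟨_, a, _, b, add_mul x y m ▸ c⟩⟩
  have h3 : I.Nonempty := by
    letI := @Ultrafilter.add ℕ+ _
    letI := @Ultrafilter.addSemigroup ℕ+ _
    obtain ⟨p, hp⟩ := exists_idempotent_of_compact_t2_of_continuous_add_left
      (@Ultrafilter.continuous_add_left ℕ+ _)
    refine ⟨p, fun A hA => ?_⟩
    have := (Ultrafilter.eventually_add p p (· ∈ A)).1 (hp.symm ▸ hA)
    obtain ⟨x, x1, x2⟩ := (this.and hA).exists
    obtain ⟨y, y1, y2⟩ := (x1.and hA).exists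
    exact ⟨x, x2, y, y2, y1⟩
  refine ⟨(hyperfilter ℕ).map fac, fun n => ?_, fun h => ?_⟩
  · refine hyperfilter_le_cofinite (Nat.cofinite_eq_atTop ▸ ?_)
    filter_upwards [eventually_ge_atTop (n : ℕ)] with k hk
    exact PNat.dvd_iff.2 (Nat.dvd_factorial n.2 (by omega))
  · obtain ⟨_, ⟨i, rfl⟩, _, ⟨j, rfl⟩, k, hk⟩ := h I ⟨⟨h3, h2⟩, h1⟩ (Set.range fac) range_mem_map
    have e : (k + 3).factorial = (i + 3).factorial + (j + 3).factorial := congrArg PNat.val hk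
    have a := Nat.factorial_pos (i + 3)
    have b := Nat.factorial_pos (j + 3)
    have c : i + 3 < k + 3 := (Nat.factorial_lt (by omega)).1 (by omega)
    have d : j + 3 < k + 3 := (Nat.factorial_lt (by omega)).1 (by omega)
    have := Nat.factorial_le (show i + 3 ≤ k + 2 by omega)
    have := Nat.factorial_le (show j + 3 ≤ k + 2 by omega)
    rw [Nat.factorial_succ (k + 2)] at e
    nlinarith

end Pool.Agent.Results.MP_34bddf_lc.No
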